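import Pool.Agent.H61.HB.Stmts4

/-!
Project HB, row OSB: self interaction of the waves
-/

set_option autoImplicit false

namespace HB

/-- norm of a finite sum -/
private lemma osb_sum (hMMB : MMBStmt) {ι : Type} [DecidableEq ι] (s : ℝ) (S : Finset ι)
    (u : ι → V) (B : ι → ℝ) (hm : ∀ i ∈ S, Mem s (u i)) (hB : ∀ i ∈ S, nsq s (u i) ≤ B i)
    (hB0 : ∀ i, 0 ≤ B i) :
    Mem s (∑ i ∈ S, u i) ∧ nsq s (∑ i ∈ S, u i) ≤ 2 ^ S.card * ∑ i ∈ S, B i := by
  obtain ⟨_, _, _, _, _, h6⟩ := hMMB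
  induction S using Finset.induction_on with
  | empty =>
    refine ⟨?_, ?_⟩
    · intro j
      simp [MemS, summable_zero]
    · simp [nsq, nqS]
  | insert a S ha ih =>
    obtain ⟨i1, i2⟩ := ih (fun i hi => hm i (Finset.mem_insert_of_mem hi))
      (fun i hi => hB i (Finset.mem_insert_of_mem hi))
    obtain ⟨_, j2, _, j4⟩ := h6 s (u a) (∑ i ∈ S, u i) (hm a (Finset.mem_insert_self a S)) i1
    rw [Finset.sum_insert ha, Finset.sum_insert ha, Finset.card_insert_of_notMem ha]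
    refine ⟨j2, j4.trans ?_⟩
    have h1 := hB a (Finset.mem_insert_self a S)
    have h2 : (1 : ℝ) ≤ 2 ^ S.card := one_le_pow₀ (by norm_num)
    have h3 := hB0 a
    have h4 : nsq s (u a) ≤ 2 ^ S.card * B a := h1.trans (le_mul_of_one_le_left h3 h2)
    rw [pow_succ]
    nlinarith

private lemma osb_car (N : ℤ) (i : Fin 4) : sq (car N i) = (N : ℝ) ^ 2 := by
  fin_cases i <;> simp [car, dir, sgn, sq]

private lemma osb_far (N : ℤ) (i i' : Fin 4) (h : i' ≠ opp i) :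
    (N : ℝ) ^ 2 ≤ sq (car N i + car N i') := by
  have hN := sq_nonneg (N : ℝ)
  fin_cases i <;> fin_cases i' <;> first | exact absurd rfl h | skip
  all_goals
    simp only [car, dir, sgn, sq, Prod.fst_add, Prod.snd_add]
    norm_num
    try nlinarith

/-- OSB -/
theorem osb_thm (hLOW : LOWStmt) (hMUB : MUBStmt) (hSHF : SHFStmt) (hFSB : FSBStmt)
    (hMMB : MMBStmt) : OSBStmt := by
  intro ν M p hM hp
  obtain ⟨_, f2, f3, f4, f5, f6, f7⟩ := hFSB
  have hpro : ∀ i, Fs M (pro ν p i) := f6 M ν p hM hp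
  have hadv : ∀ i i', Fs (M + M) (adv (pro ν p i) (pro ν p i')) := fun i i' =>
    (f4 M M _ _ hM hM (hpro i) (hpro i')).1
  have hmul : ∀ i i' d, Fs (M + M) (mul d (pro ν p i) (pro ν p i')) := fun i i' d =>
    (f4 M M _ _ hM hM (hpro i) (hpro i')).2 d
  have hK := fun i i' => hMUB M (pro ν p i) (pro ν p i') hM (hpro i) (hpro i')
  choose K hK0 hK1 using hK
  have hMMB' := hMMB
  obtain ⟨_, _, _, n4, _, n6⟩ := hMMB'
  -- the first sum
  set S1 : V := ∑ i : Fin 4, adv (pro ν p i) (pro ν p (opp i)) with hS1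
  have hS1m : Mem (-1) S1 := by
    refine (osb_sum hMMB (-1) Finset.univ _ (fun i => nsq (-1)
      (adv (pro ν p i) (pro ν p (opp i)))) (fun i _ => ?_) (fun i _ => le_rfl) fun i => n4 _ _).1
    exact f2 (M + M) (-1) _ (hadv i (opp i))
  -- bound for the second sum
  set B : Fin 4 × Fin 4 → ℝ := fun x =>
    8 * nsq 0 (adv (pro ν p x.1) (pro ν p x.2)) + 8 * K x.1 x.2 with hB
  have hB0 : ∀ x, 0 ≤ B x := fun x => by
    have h1 := n4 0 (adv (pro ν p x.1) (pro ν p x.2))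
    have h2 := hK0 x.1 x.2
    simp only [hB]
    positivity
  set P : Finset (Fin 4 × Fin 4) := Finset.univ.filter fun x => x.2 ≠ opp x.1 with hP
  refine ⟨2 * nsq (-1) S1 + 2 * (2 ^ P.card * ∑ x ∈ P, B x), ⌈4 * M⌉₊, ?_, ?_⟩
  · have h1 := n4 (-1) S1
    have h2 : 0 ≤ ∑ x ∈ P, B x := Finset.sum_nonneg fun x _ => hB0 x
    positivity
  intro N hN hN1
  have hN4 : 4 * M ≤ N := (Nat.le_ceil _).trans (by exact_mod_cast hN)
  have hN1' : (1 : ℝ) ≤ N := by exact_mod_cast hN1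
  set Q : Fin 4 × Fin 4 → V := fun x => adv (pro ν p x.1) (pro ν p x.2) +
    mul (car N x.2) (pro ν p x.1) (pro ν p x.2) with hQ
  set u : Fin 4 × Fin 4 → V := fun x => sh (car N x.1 + car N x.2) (Q x) with hu
  have hQF : ∀ x, Fs (M + M) (Q x) := fun x =>
    (f3 (M + M) _ _ (hadv x.1 x.2) (hmul x.1 x.2 (car N x.2))).1
  have hQn : ∀ x, nsq 0 (Q x) ≤ 2 * nsq 0 (adv (pro ν p x.1) (pro ν p x.2)) +
      2 * (K x.1 x.2 * (N : ℝ) ^ 2) := by
    intro x
    have h1 := (n6 0 _ _ (f2 (M + M) 0 _ (hadv x.1 x.2))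
      (f2 (M + M) 0 _ (hmul x.1 x.2 (car N x.2)))).2.2.2
    have h2 := hK1 x.1 x.2 (car N x.2)
    rw [osb_car, Int.cast_natCast] at h2
    linarith
  have hshf : ∀ x ∈ P, Mem (-1) (u x) ∧ nsq (-1) (u x) ≤ B x := by
    intro x hx
    rw [hP, Finset.mem_filter] at hx
    have hfar := osb_far N x.1 x.2 hx.2
    rw [Int.cast_natCast] at hfar
    have h1 := hSHF (M + M) N (-1) (car N x.1 + car N x.2) (Q x) (by linarith) (by linarith)
      (by linarith) hfar (by norm_num) (hQF x)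
    refine ⟨h1.1, h1.2.trans ?_⟩
    have hNpos : (0 : ℝ) < (N : ℝ) ^ 2 := by positivity
    rw [Real.rpow_neg_one, inv_div, div_mul_eq_mul_div, div_le_iff₀ hNpos]
    have h2 := hQn x
    have h3 := n4 0 (adv (pro ν p x.1) (pro ν p x.2))
    have h5 : (1 : ℝ) ≤ (N : ℝ) ^ 2 := one_le_pow₀ hN1'
    simp only [hB]
    nlinarith
  have hsum := osb_sum hMMB (-1) P u B (fun x hx => (hshf x hx).1) (fun x hx => (hshf x hx).2) hB0
  have hfun : (fun j k => adv (osc ν p (N : ℤ)) (osc ν p (N : ℤ)) j k -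
      ((2 * ν * (N : ℝ) : ℝ) : ℂ) * p j k) = S1 + ∑ x ∈ P, u x := by
    funext j k
    have h1 := hLOW ν M p N hM hp j k
    rw [Int.cast_natCast] at h1
    rw [h1]
    have h2 : (∑ i : Fin 4, ∑ i' ∈ Finset.univ.erase (opp i), sh (car N i + car N i')
        (adv (pro ν p i) (pro ν p i') + mul (car N i') (pro ν p i) (pro ν p i')) j k) =
        ∑ x ∈ P, u x j k := by
      rw [hP, Finset.sum_filter, Fintype.sum_prod_type]
      refine Finset.sum_congr rfl fun i _ => ?_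
      rw [← Finset.sum_filter]
      refine Finset.sum_congr ?_ fun i' _ => rfl
      ext i'
      simp
    rw [h2, Pi.add_apply, Pi.add_apply, hS1, Finset.sum_apply, Finset.sum_apply, Finset.sum_apply,
      Finset.sum_apply]
    ring
  rw [hfun]
  have h7 := (n6 (-1) S1 (∑ x ∈ P, u x) hS1m hsum.1).2.2.2
  linarith [hsum.2]

end HB
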